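import Mathlib

/-!
# Paneled polyhedra cut along a matching

The hinges of a convex polyhedron along the edges of a matching are implied by the other hinges:
at a vertex where only one hinge is cut, the remaining panels still form a chain of hinges through
that vertex, so the vertex stays common to all of them; hence both endpoints of a cut edge stay
common to its two panels, and so does the whole edge.
-/

namespace Pool.Agent.Results.MP_e0197a_co.HingesImplied

open Set Filter Topology

/-- Euclidean three-space. -/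
abbrev E : Type := EuclideanSpace ℝ (Fin 3)

/-- The intersection of the half-spaces `⟪a i, x⟫ ≤ b i`. -/
def body {ι : Type} (a : ι → E) (b : ι → ℝ) : Set E := {x | ∀ i, inner ℝ (a i) x ≤ b i}

/-- The part of the body on the boundary plane of the half-space `i`. -/
def face {ι : Type} (a : ι → E) (b : ι → ℝ) (i : ι) : Set E :=
  {x | x ∈ body a b ∧ inner ℝ (a i) x = b i}

/-- A convex polyhedron: a bounded intersection of finitely many half-spaces with an interior
point, such that each half-space carries a two-dimensional face and none of these faces lies in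
another one. -/
structure Polyhedron where
  /-- The index type of the faces. -/
  ι : Type
  /-- There are finitely many faces. -/
  finite : Finite ι
  /-- The outer normals. -/
  a : ι → E
  /-- The right-hand sides. -/
  b : ι → ℝ
  normal_ne : ∀ i, a i ≠ 0
  bounded : Bornology.IsBounded (body a b)
  solid : (interior (body a b)).Nonempty
  two_dim : ∀ i, Module.finrank ℝ (vectorSpan ℝ (face a b i)) = 2
  irredundant : ∀ i j, face a b i ⊆ face a b j → i = j

namespace Polyhedron

variable (P : Polyhedron)

/-- The polyhedron as a set of points. -/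
def carrier : Set E := body P.a P.b

/-- The panels: the two-dimensional faces. -/
def panel (i : P.ι) : Set E := face P.a P.b i

/-- The edges: the common parts of two panels that are more than a point. -/
def IsEdge (e : Set E) : Prop :=
  ∃ i j, i ≠ j ∧ (P.panel i ∩ P.panel j).Nontrivial ∧ e = P.panel i ∩ P.panel j

/-- The vertices: the extreme points. -/
def IsVertex (v : E) : Prop := v ∈ P.carrier.extremePoints ℝ

/-- A matching: a set of edges, no two of which share an endpoint. -/
def IsMatching (M : Set (Set E)) : Prop :=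
  (∀ e ∈ M, P.IsEdge e) ∧ ∀ e ∈ M, ∀ f ∈ M, ∀ v, P.IsVertex v → v ∈ e → v ∈ f → e = f

/-- A placement of the panels respects all hinges outside `M`: the two panels at an edge that is
not in `M` agree on that edge. -/
def Respects (M : Set (Set E)) (g : P.ι → E ≃ᵃⁱ[ℝ] E) : Prop :=
  ∀ i j, i ≠ j → (P.panel i ∩ P.panel j).Nontrivial → P.panel i ∩ P.panel j ∉ M →
    ∀ x ∈ P.panel i ∩ P.panel j, g i x = g j x

/-- A motion of the paneled polyhedron cut along `M`: a continuous family of placements, starting
at the given position, that respects all hinges outside `M`. -/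
def IsMotion (M : Set (Set E)) (g : ℝ → P.ι → E ≃ᵃⁱ[ℝ] E) : Prop :=
  (∀ i x, Continuous fun t => g t i x) ∧ (∀ i x, g 0 i x = x) ∧ ∀ t, P.Respects M (g t)

/-- The paneled polyhedron cut along `M` is rigid: every motion moves all panels by one common
isometry at each time. -/
def Rigid (M : Set (Set E)) : Prop :=
  ∀ g : ℝ → P.ι → E ≃ᵃⁱ[ℝ] E, P.IsMotion M g →
    ∀ t, ∃ h : E ≃ᵃⁱ[ℝ] E, ∀ i, ∀ x ∈ P.panel i, g t i x = h x

end Polyhedron

section Local

variable {ι : Type} {a : ι → E} {b : ι → ℝ}

theorem interior_lt (i : ι) (hi : a i ≠ 0) {p : E} (hp : p ∈ interior (body a b)) :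
    inner ℝ (a i) p < b i := by
  have hcont : Continuous fun s : ℝ => p + s • a i := by fun_prop
  have hnear : ∀ᶠ s in 𝓝 (0 : ℝ), p + s • a i ∈ interior (body a b) := by
    refine hcont.continuousAt.eventually (IsOpen.mem_nhds isOpen_interior ?_)
    simpa using hp
  obtain ⟨s, hs, hs0⟩ := ((hnear.filter_mono nhdsWithin_le_nhds).and
    (self_mem_nhdsWithin : Ioi (0 : ℝ) ∈ 𝓝[>] (0 : ℝ))).exists
  have h1 : inner ℝ (a i) (p + s • a i) ≤ b i := interior_subset hs i
  rw [inner_add_right, inner_smul_right] at h1
  have h2 : 0 < inner ℝ (a i) (a i) := real_inner_self_pos.2 hi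
  have h3 : 0 < s * inner ℝ (a i) (a i) := mul_pos hs0 h2
  linarith

/-- At a vertex `v` of the edge `face i₀ ∩ face j₀` the values `q` of the two faces agree if the
values agree across all other edges at `v`. -/
theorem key [Fintype ι] (hne : ∀ i, a i ≠ 0) {p : E} (hp : p ∈ interior (body a b)) {v : E}
    (hv : v ∈ (body a b).extremePoints ℝ) {i₀ j₀ : ι} (hv0 : v ∈ face a b i₀)
    (hv1 : v ∈ face a b j₀) (hnt : (face a b i₀ ∩ face a b j₀).Nontrivial)
    {x0 x1 : E} (hx0 : x0 ∈ face a b i₀) (hx0' : x0 ∉ face a b j₀)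
    (hx1 : x1 ∈ face a b j₀) (hx1' : x1 ∉ face a b i₀) (q : ι → E)
    (hq : ∀ i j, i ≠ j → v ∈ face a b i → v ∈ face a b j →
      (face a b i ∩ face a b j).Nontrivial →
      face a b i ∩ face a b j ≠ face a b i₀ ∩ face a b j₀ → q i = q j) :
    q i₀ = q j₀ := by
  classical
  set e : Set E := face a b i₀ ∩ face a b j₀ with he
  have hve : v ∈ e := ⟨hv0, hv1⟩
  set d : E := p - v with hd
  have hdneg : ∀ i, v ∈ face a b i → inner ℝ (a i) d < 0 := by
    intro i hi
    rw [hd, inner_sub_right, hi.2]
    have := interior_lt i (hne i) hp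
    linarith
  let A : Finset ι := Finset.univ.filter fun i => v ∈ face a b i
  have hmemA : ∀ i, i ∈ A ↔ v ∈ face a b i := by intro i; simp [A]
  have hA : A.Nonempty := ⟨i₀, (hmemA i₀).2 hv0⟩
  let r : ι → E → ℝ := fun i z => inner ℝ (a i) z / (-inner ℝ (a i) d)
  let T : E → ℝ := fun z => A.sup' hA fun i => r i z
  have hrc : ∀ i, Continuous (r i) := by
    intro i
    simp only [r]
    fun_prop
  have hTc : Continuous T := by
    refine Continuous.finset_sup'_apply hA fun i _ => hrc i
  have hle : ∀ i ∈ A, ∀ z, r i z ≤ T z := fun i hi z => Finset.le_sup' (fun i => r i z) hi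
  have hex : ∀ z, ∃ i ∈ A, T z = r i z := fun z => Finset.exists_mem_eq_sup' hA fun i => r i z
  choose c hcA hcT using hex
  -- the point over `z` on the boundary of the tangent cone
  have hle0 : ∀ i ∈ A, ∀ z, inner ℝ (a i) (z + T z • d) ≤ 0 := by
    intro i hi z
    have h1 := hdneg i ((hmemA i).1 hi)
    have h2 := hle i hi z
    simp only [r] at h2
    rw [div_le_iff₀ (by linarith)] at h2
    rw [inner_add_right, inner_smul_right]
    linarith
  have heq0 : ∀ i ∈ A, ∀ z, r i z = T z → inner ℝ (a i) (z + T z • d) = 0 := by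
    intro i hi z h
    have h1 := hdneg i ((hmemA i).1 hi)
    simp only [r] at h
    rw [div_eq_iff (by linarith)] at h
    rw [inner_add_right, inner_smul_right]
    linarith
  let S : Set E := {z | ∀ x ∈ e, ∀ s : ℝ, 0 ≤ s → ∀ t : ℝ, z ≠ s • (x - v) - t • d}
  have claim1 : ∀ z ∈ S, ∀ i ∈ A, ∀ j ∈ A, r i z = T z → r j z = T z → q i = q j := by
    intro z hz i hi j hj hi' hj'
    by_cases hij : i = j
    · rw [hij]
    set y : E := z + T z • d with hy
    have hy0 : y ≠ 0 := by
      intro h0
      refine hz v hve 0 le_rfl (T z) ?_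
      rw [zero_smul, zero_sub]
      exact eq_neg_of_add_eq_zero_left h0
    have hev : ∀ᶠ ε in 𝓝[>] (0 : ℝ), ∀ k, inner ℝ (a k) (v + ε • y) ≤ b k := by
      rw [Filter.eventually_all]
      intro k
      by_cases hk : k ∈ A
      · filter_upwards [self_mem_nhdsWithin] with ε hε
        have h1 := hle0 k hk z
        have h2 : inner ℝ (a k) v = b k := ((hmemA k).1 hk).2
        have h3 : (0 : ℝ) < ε := hε
        rw [inner_add_right, inner_smul_right, h2]
        have := mul_nonpos_of_nonneg_of_nonpos h3.le h1
        linarith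
      · have hlt : inner ℝ (a k) v < b k := by
          refine lt_of_le_of_ne (hv0.1 k) fun h => hk ((hmemA k).2 ⟨hv0.1, h⟩)
        have hcont : Continuous fun ε : ℝ => inner ℝ (a k) (v + ε • y) := by fun_prop
        have : ∀ᶠ ε in 𝓝 (0 : ℝ), inner ℝ (a k) (v + ε • y) < b k := by
          refine hcont.continuousAt.eventually (Iio_mem_nhds ?_)
          simpa using hlt
        filter_upwards [nhdsWithin_le_nhds this] with ε hε using hε.le
    obtain ⟨ε, hε, hε0⟩ := (hev.and (self_mem_nhdsWithin : Ioi (0 : ℝ) ∈ 𝓝[>] (0 : ℝ))).exists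
    have hε0' : (0 : ℝ) < ε := hε0
    have hmem : ∀ k ∈ A, r k z = T z → v + ε • y ∈ face a b k := by
      intro k hk hk'
      refine ⟨hε, ?_⟩
      rw [inner_add_right, inner_smul_right, heq0 k hk z hk', ((hmemA k).1 hk).2]
      ring
    refine hq i j hij ((hmemA i).1 hi) ((hmemA j).1 hj) ?_ ?_
    · refine ⟨v, ⟨(hmemA i).1 hi, (hmemA j).1 hj⟩, v + ε • y, ⟨hmem i hi hi', hmem j hj hj'⟩, ?_⟩
      intro h
      have : ε • y = 0 := by
        have := congrArg (fun w => w - v) h
        simpa using this.symm
      rcases smul_eq_zero.1 this with h1 | h1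
      · exact hε0'.ne' h1
      · exact hy0 h1
    · intro h
      have h1 : v + ε • y ∈ e := by
        rw [← h]
        exact ⟨hmem i hi hi', hmem j hj hj'⟩
      refine hz _ h1 ε⁻¹ (by positivity) (T z) ?_
      rw [add_sub_cancel_left, smul_smul, inv_mul_cancel₀ hε0'.ne', one_smul, hy]
      abel
  -- the chosen value is locally constant
  have hcont : ContinuousOn (fun z => q (c z)) S := by
    intro z hz
    have hev : ∀ᶠ z' in 𝓝 z, ∀ k ∈ A, r k z < T z → r k z' < T z' := by
      rw [Filter.eventually_all_finset]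
      intro k _
      by_cases hk : r k z < T z
      · have : ∀ᶠ z' in 𝓝 z, r k z' < T z' :=
          ((hrc k).continuousAt.eventually_lt (hTc.continuousAt) hk)
        filter_upwards [this] with z' hz' _ using hz'
      · exact Filter.Eventually.of_forall fun _ h => absurd h hk
    have heq : (fun z => q (c z)) =ᶠ[𝓝[S] z] fun _ => q (c z) := by
      filter_upwards [nhdsWithin_le_nhds hev, self_mem_nhdsWithin] with z' hz' hS'
      have h1 : ¬ r (c z') z < T z := by
        intro h
        have := hz' (c z') (hcA z') h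
        rw [hcT z'] at this
        exact lt_irrefl _ this
      have h2 : r (c z') z = T z := le_antisymm (hle _ (hcA z') z) (not_lt.1 h1)
      exact claim1 z hz (c z') (hcA z') (c z) (hcA z) h2 (hcT z).symm
    exact continuousWithinAt_const.congr_of_eventuallyEq heq rfl
  -- the parameter set is star-shaped
  obtain ⟨w, hwe, hwv⟩ := hnt.exists_ne v
  have hin0 : ∀ x ∈ face a b i₀, inner ℝ (a i₀) (x - v) = 0 := by
    intro x hx
    rw [inner_sub_right, hx.2, hv0.2, sub_self]
  have hin1 : ∀ x ∈ face a b j₀, inner ℝ (a j₀) (x - v) = 0 := by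
    intro x hx
    rw [inner_sub_right, hx.2, hv1.2, sub_self]
  have hd0 := hdneg i₀ hv0
  have hd1 := hdneg j₀ hv1
  have hbase : -(w - v) ∈ S := by
    intro x hx s hs t h
    have h1 := congrArg (fun z => inner ℝ (a i₀) z) h
    simp only [inner_neg_right, inner_sub_right (a i₀) (s • (x - v)), inner_smul_right,
      hin0 w hwe.1, hin0 x hx.1, neg_zero, mul_zero, zero_sub] at h1
    have ht : t = 0 := by
      rcases mul_eq_zero.1 (neg_eq_zero.1 h1.symm) with h2 | h2
      · exact h2
      · exact absurd h2 hd0.ne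
    rw [ht, zero_smul, sub_zero] at h
    have hs1 : (0 : ℝ) < 1 + s := by linarith
    have hveq : v = (1 / (1 + s)) • w + (s / (1 + s)) • x := by
      have h2 : (1 + s) • v = w + s • x := by
        have h3 : w - v + s • (x - v) = 0 := by rw [← h]; abel
        have h4 : w + s • x - (1 + s) • v = 0 := by
          rw [← h3, smul_sub, add_smul, one_smul]
          abel
        exact (sub_eq_zero.1 h4).symm
      have h5 : v = (1 + s)⁻¹ • ((1 + s) • v) := by
        rw [smul_smul, inv_mul_cancel₀ hs1.ne', one_smul]
      rw [h5, h2, smul_add, smul_smul, one_div, div_eq_inv_mul]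
    rcases hs.eq_or_lt with hs0 | hs0
    · rw [← hs0] at hveq
      simp at hveq
      exact hwv hveq.symm
    · have hseg : v ∈ openSegment ℝ w x := by
        refine ⟨1 / (1 + s), s / (1 + s), by positivity, by positivity, ?_, hveq.symm⟩
        field_simp
      exact hwv (hv.2 hwe.1.1 hx.1.1 hseg)
  have hconv : Convex ℝ e := by
    have hb : Convex ℝ (body a b) := by
      intro x hx y hy s t hs ht hst k
      rw [inner_add_right, inner_smul_right, inner_smul_right]
      have h1 := mul_le_mul_of_nonneg_left (hx k) hs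
      have h2 := mul_le_mul_of_nonneg_left (hy k) ht
      have h3 : s * b k + t * b k = b k := by rw [← add_mul, hst, one_mul]
      linarith
    have hf : ∀ i, Convex ℝ (face a b i) := by
      intro i x hx y hy s t hs ht hst
      refine ⟨hb hx.1 hy.1 hs ht hst, ?_⟩
      rw [inner_add_right, inner_smul_right, inner_smul_right, hx.2, hy.2, ← add_mul, hst, one_mul]
    exact (hf i₀).inter (hf j₀)
  have hstar : StarConvex ℝ (-(w - v)) S := by
    intro z hz α β hα hβ hαβ x hx s hs t h
    rcases hβ.eq_or_lt with hβ0 | hβ0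
    · rw [← hβ0, zero_smul, add_zero] at h
      have hα1 : α = 1 := by linarith
      rw [hα1, one_smul] at h
      exact hbase x hx s hs t h
    · -- `z` would lie in the excluded set
      have h1 : β • z = s • (x - v) + α • (w - v) - t • d := by
        have : β • z = (α • -(w - v) + β • z) + α • (w - v) := by
          rw [smul_neg]; abel
        rw [this, h]
        abel
      have h2 : z = β⁻¹ • (s • (x - v) + α • (w - v)) - (β⁻¹ * t) • d := by
        have h3 : z = β⁻¹ • (β • z) := by rw [smul_smul, inv_mul_cancel₀ hβ0.ne', one_smul]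
        rw [h3, h1, smul_sub, smul_smul (β⁻¹) t d]
      rcases (add_nonneg hs hα).eq_or_lt with h0 | h0
      · have hs0 : s = 0 := by linarith
        have hα0 : α = 0 := by linarith
        refine hz v hve 0 le_rfl (β⁻¹ * t) ?_
        rw [h2, hs0, hα0]
        simp
      · have hx' : (s / (s + α)) • x + (α / (s + α)) • w ∈ e := by
          refine hconv hx hwe (by positivity) (by positivity) ?_
          field_simp
        refine hz _ hx' (β⁻¹ * (s + α)) (by positivity) (β⁻¹ * t) ?_
        rw [h2]
        congr 1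
        rw [mul_smul]
        congr 1
        have e1 : (s + α) • ((s / (s + α)) • x + (α / (s + α)) • w) = s • x + α • w := by
          rw [smul_add, smul_smul, smul_smul, mul_div_cancel₀ _ h0.ne', mul_div_cancel₀ _ h0.ne']
        rw [smul_sub (s + α), e1, add_smul, smul_sub s, smul_sub α]
        abel
  have hS : IsPreconnected S := (hstar.isPathConnected hbase).isConnected.isPreconnected
  -- a point over the face `i₀` and one over the face `j₀`
  have hpt : ∀ i j : ι, v ∈ face a b i → v ∈ face a b j → e = face a b i ∩ face a b j →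
      ∀ x0, x0 ∈ face a b i → x0 ∉ face a b j → x0 - v ∈ S ∧ r i (x0 - v) = T (x0 - v) := by
    intro i j hvi hvj hee x0 hx0 hx0'
    have h0 : ∀ x ∈ face a b i, inner ℝ (a i) (x - v) = 0 := by
      intro x hx
      rw [inner_sub_right, hx.2, hvi.2, sub_self]
    refine ⟨?_, ?_⟩
    · intro x hx s hs t h
      rw [hee] at hx
      have h1 := congrArg (fun z => inner ℝ (a i) z) h
      simp only [inner_sub_right (a i) (s • (x - v)), inner_smul_right, h0 x hx.1, h0 x0 hx0,
        mul_zero, zero_sub] at h1
      have ht : t = 0 := by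
        rcases mul_eq_zero.1 (neg_eq_zero.1 h1.symm) with h2 | h2
        · exact h2
        · exact absurd h2 (hdneg i hvi).ne
      rw [ht, zero_smul, sub_zero] at h
      have h2 := congrArg (fun z => inner ℝ (a j) z) h
      have h3 : inner ℝ (a j) (x - v) = 0 := by
        rw [inner_sub_right, hx.2.2, hvj.2, sub_self]
      simp only [inner_smul_right, h3, mul_zero, inner_sub_right] at h2
      rw [hvj.2] at h2
      exact hx0' ⟨hx0.1, by linarith⟩
    · refine le_antisymm (hle i ((hmemA i).2 hvi) _) ?_
      refine Finset.sup'_le hA _ fun k hk => ?_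
      have h1 := hdneg k ((hmemA k).1 hk)
      simp only [r]
      rw [h0 x0 hx0, zero_div]
      refine div_nonpos_of_nonpos_of_nonneg ?_ (by linarith)
      rw [inner_sub_right, ((hmemA k).1 hk).2]
      have := hx0.1 k
      linarith
  obtain ⟨hz0, hz0'⟩ := hpt i₀ j₀ hv0 hv1 he x0 hx0 hx0'
  obtain ⟨hz1, hz1'⟩ := hpt j₀ i₀ hv1 hv0 (by rw [he, inter_comm]) x1 hx1 hx1'
  have hfin : (Set.range q).Finite := Set.finite_range q
  have hconst := hS.constant_of_mapsTo hfin.isDiscrete hcont
    (fun z _ => Set.mem_range_self (c z)) hz0 hz1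
  rw [claim1 _ hz0 i₀ ((hmemA i₀).2 hv0) (c _) (hcA _) hz0' (hcT _).symm,
    claim1 _ hz1 j₀ ((hmemA j₀).2 hv1) (c _) (hcA _) hz1' (hcT _).symm]
  exact hconst

theorem body_convex (a : ι → E) (b : ι → ℝ) : Convex ℝ (body a b) := by
  intro x hx y hy s t hs ht hst k
  rw [inner_add_right, inner_smul_right, inner_smul_right]
  have h1 := mul_le_mul_of_nonneg_left (hx k) hs
  have h2 := mul_le_mul_of_nonneg_left (hy k) ht
  have h3 : s * b k + t * b k = b k := by rw [← add_mul, hst, one_mul]
  linarith

theorem face_convex (a : ι → E) (b : ι → ℝ) (i : ι) : Convex ℝ (face a b i) := by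
  intro x hx y hy s t hs ht hst
  refine ⟨body_convex a b hx.1 hy.1 hs ht hst, ?_⟩
  rw [inner_add_right, inner_smul_right, inner_smul_right, hx.2, hy.2, ← add_mul, hst, one_mul]

theorem face_extreme (a : ι → E) (b : ι → ℝ) (i : ι) : IsExtreme ℝ (body a b) (face a b i) := by
  refine ⟨fun x hx => hx.1, ?_⟩
  intro x hx y hy z hz hzs
  obtain ⟨s, t, hs, ht, hst, rfl⟩ := hzs
  refine ⟨hx, ?_⟩
  have h1 := hz.2
  rw [inner_add_right, inner_smul_right, inner_smul_right] at h1
  have h2 := hx i
  have h3 := hy i
  have h4 : s * b i + t * b i = b i := by rw [← add_mul, hst, one_mul]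
  by_contra hlt
  have h5 : inner ℝ (a i) x < b i := lt_of_le_of_ne h2 hlt
  have h6 := mul_lt_mul_of_pos_left h5 hs
  have h7 := mul_le_mul_of_nonneg_left h3 ht.le
  linarith

theorem body_closed (a : ι → E) (b : ι → ℝ) : IsClosed (body a b) := by
  have : body a b = ⋂ i, {x | inner ℝ (a i) x ≤ b i} := by
    ext x; simp [body]
  rw [this]
  exact isClosed_iInter fun i => isClosed_le (by fun_prop) continuous_const

theorem face_closed (a : ι → E) (b : ι → ℝ) (i : ι) : IsClosed (face a b i) :=
  (body_closed a b).inter (isClosed_eq (by fun_prop) continuous_const)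

end Local

/-- Placements that respect the hinges outside a matching respect all hinges. -/
theorem respects_all (P : Polyhedron) {M : Set (Set E)} (hM : P.IsMatching M)
    (g : P.ι → E ≃ᵃⁱ[ℝ] E) (hg : P.Respects M g) : P.Respects ∅ g := by
  classical
  have := P.finite
  let _ : Fintype P.ι := Fintype.ofFinite _
  intro i j hij hnt _ x hx
  by_cases hmem : P.panel i ∩ P.panel j ∉ M
  · exact hg i j hij hnt hmem x hx
  push Not at hmem
  obtain ⟨p, hp⟩ := P.solid
  obtain ⟨x0, hx0, hx0'⟩ := Set.not_subset.1 fun h => hij (P.irredundant i j h)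
  obtain ⟨x1, hx1, hx1'⟩ := Set.not_subset.1 fun h => hij (P.irredundant j i h).symm
  -- the vertices of the edge
  have hvert : ∀ v ∈ (P.panel i ∩ P.panel j).extremePoints ℝ, g i v = g j v := by
    intro v hv
    have hext : IsExtreme ℝ (body P.a P.b) (P.panel i ∩ P.panel j) :=
      (face_extreme P.a P.b i).inter (face_extreme P.a P.b j)
    rw [hext.extremePoints_eq] at hv
    refine key P.normal_ne hp hv.2 hv.1.1 hv.1.2 hnt hx0 hx0' hx1 hx1' (fun k => g k v) ?_
    intro i' j' hij' hvi hvj hnt' hne
    refine hg i' j' hij' hnt' ?_ v ⟨hvi, hvj⟩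
    intro hM'
    exact hne (hM.2 _ hM' _ hmem v hv.2 ⟨hvi, hvj⟩ hv.1)
  have hcomp : IsCompact (P.panel i ∩ P.panel j) := by
    refine Metric.isCompact_of_isClosed_isBounded
      ((face_closed P.a P.b i).inter (face_closed P.a P.b j)) ?_
    exact P.bounded.subset fun y hy => hy.1.1
  have hkm := closure_convexHull_extremePoints hcomp
    ((face_convex P.a P.b i).inter (face_convex P.a P.b j))
  have hcl : IsClosed {y : E | g i y = g j y} :=
    isClosed_eq (g i).continuous (g j).continuous
  have hcv : Convex ℝ {y : E | g i y = g j y} := by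
    intro y hy z hz s t hs ht hst
    have e1 : g i (s • y + t • z) = s • g i y + t • g i z :=
      Convex.combo_affine_apply (f := ((g i).toAffineEquiv : E →ᵃ[ℝ] E)) hst
    have e2 : g j (s • y + t • z) = s • g j y + t • g j z :=
      Convex.combo_affine_apply (f := ((g j).toAffineEquiv : E →ᵃ[ℝ] E)) hst
    have hy' : g i y = g j y := hy
    have hz' : g i z = g j z := hz
    show g i (s • y + t • z) = g j (s • y + t • z)
    rw [e1, e2, hy', hz']
  have hsub : closure (convexHull ℝ ((P.panel i ∩ P.panel j).extremePoints ℝ)) ⊆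
      {y : E | g i y = g j y} :=
    closure_minimal (convexHull_min hvert hcv) hcl
  rw [hkm] at hsub
  exact hsub hx

/-- **Answer to Q1.** Let `M` be a matching in the `1`-skeleton of a convex polyhedron. A placement
of the panels that respects all hinges outside `M` respects all hinges; so the motions of the
structure cut along `M` are the motions of the uncut structure, and the cut structure is rigid iff
the uncut structure is rigid (which it is, by Cauchy's rigidity theorem). -/
theorem result (P : Polyhedron) (M : Set (Set E)) (hM : P.IsMatching M) :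
    (∀ g : P.ι → E ≃ᵃⁱ[ℝ] E, P.Respects M g ↔ P.Respects ∅ g) ∧
    (∀ g : ℝ → P.ι → E ≃ᵃⁱ[ℝ] E, P.IsMotion M g ↔ P.IsMotion ∅ g) ∧
    (P.Rigid M ↔ P.Rigid ∅) := by
  have h1 : ∀ g : P.ι → E ≃ᵃⁱ[ℝ] E, P.Respects M g ↔ P.Respects ∅ g := fun g =>
    ⟨respects_all P hM g, fun h i j hij hnt _ x hx => h i j hij hnt (Set.notMem_empty _) x hx⟩
  have h2 : ∀ g : ℝ → P.ι → E ≃ᵃⁱ[ℝ] E, P.IsMotion M g ↔ P.IsMotion ∅ g := fun g =>
    ⟨fun h => ⟨h.1, h.2.1, fun t => (h1 _).1 (h.2.2 t)⟩,
      fun h => ⟨h.1, h.2.1, fun t => (h1 _).2 (h.2.2 t)⟩⟩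
  exact ⟨h1, h2, ⟨fun h g hg => h g ((h2 g).2 hg), fun h g hg => h g ((h2 g).1 hg)⟩⟩

end Pool.Agent.Results.MP_e0197a_co.HingesImplied
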